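import Pool.Agent.Helper34.DWDefs
import Pool.Agent.Helper34.DW18

/-! There is a (smooth) damping function on the two-dimensional torus for which the energy of the
damped wave equation decays exactly at rate `1/t`. -/

namespace Pool.Agent.Results.MP_d893f8_an.ExactRate

open MeasureTheory Filter Topology Pool.Agent.Helper34.DW

lemma smooth_bT (n : ℕ) :
    ContDiff ℝ n (fun x : Fin 2 → ℝ => bT (fun i => (x i : UnitAddCircle))) := by
  have h : (fun x : Fin 2 → ℝ => bT (fun i => (x i : UnitAddCircle))) =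
      fun x => expNegInvGlue (1 - Real.cos (2 * Real.pi * x 0)) := funext bT_formula
  rw [h]
  have h1 : ContDiff ℝ n (fun x : Fin 2 → ℝ => 1 - Real.cos (2 * Real.pi * x 0)) :=
    contDiff_const.sub (Real.contDiff_cos.comp (contDiff_const.mul (contDiff_apply ℝ ℝ 0)))
  exact (expNegInvGlue.contDiff (n := (n : ℕ∞))).comp h1

lemma bT_zero (θ : Torus) : bT θ = 0 ↔ θ 0 = 0 := by
  obtain ⟨x, hx⟩ : ∃ x : Fin 2 → ℝ, (fun i => (x i : UnitAddCircle)) = θ := by
    choose x hx using fun i => QuotientAddGroup.mk_surjective (θ i)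
    exact ⟨x, funext hx⟩
  subst hx
  rw [bT_formula, expNegInvGlue.zero_iff_nonpos]
  have h1 : 1 - Real.cos (2 * Real.pi * x 0) ≤ 0 ↔ Real.cos (2 * Real.pi * x 0) = 1 := by
    have := Real.cos_le_one (2 * Real.pi * x 0)
    constructor
    · intro h
      linarith
    · intro h
      linarith
  rw [h1, Real.cos_eq_one_iff, AddCircle.coe_eq_zero_iff]
  constructor
  · rintro ⟨n, hn⟩
    refine ⟨n, ?_⟩
    have h2 : (n : ℝ) = x 0 := by
      have h3 : (0 : ℝ) < 2 * Real.pi := by positivity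
      have h4 : (2 * Real.pi) * (n : ℝ) = (2 * Real.pi) * x 0 := by linarith
      exact mul_left_cancel₀ h3.ne' h4
    simpa using h2
  · rintro ⟨n, hn⟩
    refine ⟨n, ?_⟩
    have h2 : (n : ℝ) = x 0 := by simpa using hn
    rw [← h2]
    ring

/-- For the damping `b(x₁, x₂) = exp(-1/(1 - cos x₁))` on the torus `ℝ²/(2πℤ)²` (parametrised by
`x = 2πθ`), which is smooth and vanishes exactly on the closed geodesic `x₁ = 0`, the damped wave
equation is well posed, stable at rate `1/t`, and not stable at any rate `f` with `t f(t) → 0`. -/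
theorem result :
    ∃ b : Torus → ℝ, IsDamping b ∧ Continuous b ∧
      (∀ x : Fin 2 → ℝ, b (fun i => (x i : UnitAddCircle))
        = expNegInvGlue (1 - Real.cos (2 * Real.pi * x 0))) ∧
      (∀ n : ℕ, ContDiff ℝ n (fun x : Fin 2 → ℝ => b (fun i => (x i : UnitAddCircle)))) ∧
      (∀ θ : Torus, b θ = 0 ↔ θ 0 = 0) ∧
      (∀ u₀ u₁ : L2, MemSob 1 u₀ →
        ∃ u v : ℝ → L2, IsSolution b u v ∧ u 0 = u₀ ∧ v 0 = u₁ ∧
          ∀ u' v' : ℝ → L2, IsSolution b u' v' → u' 0 = u₀ → v' 0 = u₁ →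
            ∀ t : ℝ, 0 ≤ t → u' t = u t ∧ v' t = v t) ∧
      StableAtRate b (fun t => 1 / t) ∧
      ∀ f : ℝ → ℝ, Tendsto (fun t => t * f t) atTop (𝓝 0) → ¬ StableAtRate b f :=
  ⟨bT, isDamping_bT, bT_continuous, bT_formula, smooth_bT, bT_zero, fun u₀ u₁ h => wellposed isDamping_bT u₀ u₁ h,
    stable_bT, fun _ hf => not_stable hf⟩

end Pool.Agent.Results.MP_d893f8_an.ExactRate
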